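import Mathlib
import Pool.Agent.Q186.HCA.Defs
import Pool.Agent.Q186.HCA.Final

/-!
# MP_6ee6b4_an: the set of generators of hypercyclic algebras need not be dense or residual

The example is the commutative Banach algebra `ℓ¹` with the coordinatewise product and
`T = V⁻¹ (2 B) V`, where `B` is the backward shift, `V x = x + x 0 • g` and
`g = (0, 1/4, 1/9, ...)`. If `x 0 ≠ 0` then the orbit of `x ^ 2` tends to infinity, so `G(T)` is
contained in the closed hyperplane `x 0 = 0`. In this hyperplane there are elements `x` such that
`p(x)` is hypercyclic for every nonzero polynomial `p` without constant term.
-/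

set_option autoImplicit false

open Pool.Agent.Q186.HCA

namespace Pool.Agent.Results.MP_6ee6b4_an.TwistedShift

/-- **Q1 and Q2 are false.** There is a complex Banach space `X` (in fact `ℓ¹`) with a continuous
associative and commutative product without nonzero nilpotents, and a bounded operator `T` on `X`
which supports a hypercyclic algebra, such that the set `G(T)` of generators is neither dense nor
residual; the algebras `A(x)`, `x ∈ G(T)`, are all infinite-dimensional. -/
theorem result : ∃ (X : Type) (_ : NormedAddCommGroup X) (_ : NormedSpace ℂ X),
    CompleteSpace X ∧ Counterexample X :=
  ⟨E, inferInstance, inferInstance, inferInstance, counterexample⟩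

end Pool.Agent.Results.MP_6ee6b4_an.TwistedShift
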